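import Pool.Agent.X189.BS.Stm

namespace Pool.Agent.X75.BS

open Pool.Agent.X189.BS

theorem vstep_sub {n : ℕ} (q : ℤ) (X Y : Fin (n + 1) → ℤ) (e : Fin (n + 1) × Fin (n + 1)) :
    vstep q (fun z => Y z - X z) e = fun z => vstep q Y e z - vstep q X e z := by
  funext z
  unfold vstep
  split_ifs <;> ring

theorem fold_sub {n : ℕ} (q : ℤ) (S : List (Fin (n + 1) × Fin (n + 1))) :
    ∀ X Y : Fin (n + 1) → ℤ, S.foldl (vstep q) (fun z => Y z - X z) =
      fun z => S.foldl (vstep q) Y z - S.foldl (vstep q) X z := by
  induction S with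
  | nil => intro X Y; rfl
  | cons e S ih =>
    intro X Y
    rw [List.foldl_cons, List.foldl_cons, List.foldl_cons, vstep_sub, ih]

/-- values before the flip -/
theorem pre {n : ℕ} (q : ℤ) (a c : Fin (n + 1)) (hq : 0 < q) (hac : a < c)
    (L : List (Fin (n + 1) × Fin (n + 1))) (hV : Val a c L) (P : List (Fin (n + 1) × Fin (n + 1))) :
    ∀ S, L = P ++ S → 0 < P.foldl (vstep q) (Pi.single a 1) a ∧
      ∀ z, a < z → z ≤ c → (a, z) ∉ P → P.foldl (vstep q) (Pi.single a 1) z = 0 := by
  induction P using List.reverseRecOn with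
  | nil =>
    intro S _
    refine ⟨by simp, fun z hz _ _ => ?_⟩
    simp [Pi.single_apply, hz.ne']
  | append_singleton P e ih =>
    intro S hL
    rw [List.append_assoc] at hL
    obtain ⟨h1, h2⟩ := ih _ hL
    obtain ⟨v1, v2, v3, v4, v5, v6, v7⟩ := hV P e S (by simpa using hL)
    obtain ⟨x, y⟩ := e
    simp only at v1 v2 v3 v5 v6 v7
    rw [List.foldl_append]
    simp only [List.foldl_cons, List.foldl_nil]
    set X := P.foldl (vstep q) (Pi.single a 1) with hX
    constructor
    · unfold vstep
      by_cases hx : a = x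
      · subst hx
        have := h2 y v2 v3 v4
        simp only [true_or, if_true]
        rw [this]; linarith
      · have hax : a < x := lt_of_le_of_ne v1 hx
        have hay : a ≠ y := (hax.trans v2).ne
        simp only [hx, hay, or_self, if_false]
        positivity
    · intro z hz hzc hzP
      rw [List.mem_append, List.mem_singleton, not_or] at hzP
      obtain ⟨hz1, hz2⟩ := hzP
      unfold vstep
      simp only
      by_cases hzx : z = x ∨ z = y
      · rw [if_pos hzx]
        by_cases hx : a = x
        · subst hx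
          rcases hzx with rfl | rfl
          · exact absurd hz (lt_irrefl _)
          · exact absurd rfl hz2
        · have hax : a < x := lt_of_le_of_ne v1 hx
          have hiff := v6 a le_rfl hax
          have hnx : (a, x) ∉ P := by
            rcases hzx with rfl | rfl
            · exact hz1
            · exact fun h => hz1 (hiff.1 h)
          have hny : (a, y) ∉ P := fun h => hnx (hiff.2 h)
          rw [h2 x hax (v2.le.trans v3) hnx, h2 y (hax.trans v2) v3 hny]
          ring
      · rw [if_neg hzx, h2 z hz hzc hz1]; ring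

/-- the difference after the flip -/
theorem post {n : ℕ} (q : ℤ) (a c : Fin (n + 1)) (hq : 0 < q)
    (L : List (Fin (n + 1) × Fin (n + 1))) (hV : Val a c L) (H : List (Fin (n + 1) × Fin (n + 1)))
    (D : Fin (n + 1) → ℤ) (hDc : 0 < D c) (hD : ∀ z, z < c → (z, c) ∉ H → D z = 0)
    (S1 : List (Fin (n + 1) × Fin (n + 1))) :
    ∀ S, L = H ++ S1 ++ S → 0 < S1.foldl (vstep q) D c ∧
      ∀ z, z < c → (z, c) ∉ H ++ S1 → S1.foldl (vstep q) D z = 0 := by
  induction S1 using List.reverseRecOn with
  | nil =>
    intro S _
    exact ⟨hDc, fun z hz h => hD z hz (by simpa using h)⟩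
  | append_singleton P e ih =>
    intro S hL
    have hL' : L = H ++ P ++ ([e] ++ S) := by rw [hL]; simp
    obtain ⟨h1, h2⟩ := ih _ hL'
    obtain ⟨v1, v2, v3, v4, v5, v6, v7⟩ := hV (H ++ P) e S (by rw [hL]; simp)
    obtain ⟨x, y⟩ := e
    simp only at v1 v2 v3 v5 v6 v7
    rw [List.foldl_append]
    simp only [List.foldl_cons, List.foldl_nil]
    set X := P.foldl (vstep q) D with hX
    constructor
    · unfold vstep
      simp only
      by_cases hy : c = y
      · subst hy
        have := h2 x v2 v4
        simp only [or_true, if_true]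
        rw [this]; nlinarith
      · have hyc : y < c := lt_of_le_of_ne v3 (Ne.symm hy)
        have hx : c ≠ x := (v2.trans hyc).ne'
        simp only [hx, hy, or_self, if_false]
        positivity
    · intro z hz hzP
      rw [← List.append_assoc, List.mem_append, List.mem_singleton, not_or] at hzP
      obtain ⟨hz1, hz2⟩ := hzP
      unfold vstep
      simp only
      by_cases hzx : z = x ∨ z = y
      · rw [if_pos hzx]
        by_cases hy : c = y
        · subst hy
          rcases hzx with rfl | rfl
          · exact absurd rfl hz2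
          · exact absurd hz (lt_irrefl _)
        · have hyc : y < c := lt_of_le_of_ne v3 (Ne.symm hy)
          have hiff := v5 c hyc le_rfl
          have hny : (y, c) ∉ H ++ P := by
            rcases hzx with rfl | rfl
            · exact fun h => hz1 (hiff.1 h)
            · exact hz1
          have hnx : (x, c) ∉ H ++ P := fun h => hny (hiff.2 h)
          rw [h2 x (v2.trans hyc) hnx, h2 y hyc hny]
          ring
      · rw [if_neg hzx, h2 z hz hz1]; ring

theorem t_E1 : S_E1 := by
  intro n q a b c P S hq hab hbc hV
  have hac := hab.trans hbc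
  set L := P ++ (a, b) :: (a, c) :: (b, c) :: S with hL
  obtain ⟨p1, p2⟩ := pre q a c hq hac L hV P _ hL
  have nab : (a, b) ∉ P := (hV P (a, b) _ hL).2.2.2.1
  have nac : (a, c) ∉ P := by
    have := (hV (P ++ [(a, b)]) (a, c) ((b, c) :: S) (by rw [hL]; simp)).2.2.2.1
    intro h; exact this (by simp [h])
  rw [List.foldl_append, List.foldl_append]
  simp only [List.foldl_cons]
  set X := P.foldl (vstep q) (Pi.single a 1) with hX
  have xb : X b = 0 := p2 b hab hbc.le nab
  have xc : X c = 0 := p2 c hac le_rfl nac
  set X3 := vstep q (vstep q (vstep q X (a, b)) (a, c)) (b, c) with hX3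
  set Y3 := vstep q (vstep q (vstep q X (b, c)) (a, c)) (a, b) with hY3
  have key := post q a c hq L hV (P ++ [(a, b), (a, c), (b, c)]) (fun z => Y3 z - X3 z) ?_ ?_ S []
    (by rw [hL]; simp)
  · have := key.1
    rw [fold_sub] at this
    simp only at this
    linarith
  · show 0 < Y3 c - X3 c
    have e1 : X3 c = (1 + 2 * q) * X a := by
      simp [hX3, vstep, hab.ne, hac.ne, hbc.ne, hab.ne', hac.ne', hbc.ne', xb, xc]; ring
    have e2 : Y3 c = (1 + q) * (1 + q) * X a := by
      simp [hY3, vstep, hab.ne, hac.ne, hbc.ne, hab.ne', hac.ne', hbc.ne', xb, xc]; ring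
    rw [e1, e2]
    have : (1 + q) * (1 + q) * X a - (1 + 2 * q) * X a = q * q * X a := by ring
    rw [this]; positivity
  · intro z hz hzH
    show Y3 z - X3 z = 0
    by_cases hza : z = a
    · subst hza
      simp [hX3, hY3, vstep, hab.ne, hac.ne, hbc.ne, hab.ne', hac.ne', hbc.ne', xb, xc]
    · have hzb : z ≠ b := by
        rintro rfl
        exact hzH (by simp)
      have hzc : z ≠ c := hz.ne
      simp [hX3, hY3, vstep, hza, hzb, hzc]

end Pool.Agent.X75.BS
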