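import Pool.Agent.X75.BS.E2d

namespace Pool.Agent.X75.BS

open Pool.Agent.X189.BS

variable {n : ℕ}

theorem mono (q : ℤ) {a c : Fin (n + 1)} (hq : 0 < q) (hac : a < c)
    {P' S' : List (Fin (n + 1) × Fin (n + 1))} (hV' : Val a c (P' ++ (a, c) :: S')) (t : ℕ) :
    ∀ P S : List (Fin (n + 1) × Fin (n + 1)), Val a c (P ++ (a, c) :: S) →
    (∀ e, e ∈ P ++ (a, c) :: S ↔ e ∈ P' ++ (a, c) :: S') →
    Eqv ((P ++ (a, c) :: S).filter fun e => e.1 ≠ a)
      ((P' ++ (a, c) :: S').filter fun e => e.1 ≠ a) →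
    Eqv ((P ++ (a, c) :: S).filter fun e => e.2 ≠ c)
      ((P' ++ (a, c) :: S').filter fun e => e.2 ≠ c) →
    (∀ z, (a, z) ∈ P → (a, z) ∈ P') →
    (Finset.univ.filter fun z : Fin (n + 1) => (a, z) ∈ P' ∧ (a, z) ∉ P).card = t →
    (Eqv (P ++ (a, c) :: S) (P' ++ (a, c) :: S') ∧
      (P' ++ (a, c) :: S').foldl (vstep q) (Pi.single a 1) c =
        (P ++ (a, c) :: S).foldl (vstep q) (Pi.single a 1) c) ∨
    (P' ++ (a, c) :: S').foldl (vstep q) (Pi.single a 1) c <
        (P ++ (a, c) :: S).foldl (vstep q) (Pi.single a 1) c := by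
  induction t with
  | zero =>
    intro P S hV hm hA hC hT hc
    left
    have hT' : ∀ z, (a, z) ∈ P ↔ (a, z) ∈ P' := by
      intro z
      refine ⟨hT z, fun h => ?_⟩
      by_contra h'
      have : z ∈ (Finset.univ.filter fun z : Fin (n + 1) => (a, z) ∈ P' ∧ (a, z) ∉ P) := by
        simp [h, h']
      rw [Finset.card_eq_zero.1 hc] at this
      simp at this
    have hE := same_T hac hV hV' hm hA hC hT'
    exact ⟨hE, by rw [eqv_fold q _ _ (nd hV) (nd hV') hm hE]⟩
  | succ t ih =>
    intro P S hV hm hA hC hT hc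
    right
    have hpos : 0 < (Finset.univ.filter fun z : Fin (n + 1) => (a, z) ∈ P' ∧ (a, z) ∉ P).card := by
      rw [hc]; exact Nat.succ_pos t
    obtain ⟨b0, hb0⟩ := Finset.card_pos.1 hpos
    rw [Finset.mem_filter] at hb0
    obtain ⟨b, P3, S3, k1, k2, k3, k4, k5, k6, k7, k8⟩ :=
      flip_step q hq hac hV hV' hm hA hC b0 hb0.2.1 hb0.2.2
    have hcard : (Finset.univ.filter fun z : Fin (n + 1) => (a, z) ∈ P' ∧ (a, z) ∉ P3).card = t := by
      have : (Finset.univ.filter fun z : Fin (n + 1) => (a, z) ∈ P' ∧ (a, z) ∉ P3) =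
          (Finset.univ.filter fun z : Fin (n + 1) => (a, z) ∈ P' ∧ (a, z) ∉ P).erase b := by
        ext z
        rw [Finset.mem_erase, Finset.mem_filter, Finset.mem_filter, k3 z]
        tauto
      rw [this, Finset.card_erase_of_mem (by simp [k1, k2]), hc]
      rfl
    have := ih P3 S3 k4 (fun e => (k5 e).trans (hm e)) (fun x => (k6 x).trans (hA x))
      (fun x => (k7 x).trans (hC x)) (by
        intro z hz
        rcases (k3 z).1 hz with h | rfl
        · exact hT z h
        · exact k1) hcard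
    rcases this with h | h
    · rw [h.2]; exact k8
    · exact h.trans k8

theorem no_ac {a c : Fin (n + 1)} {L L' : List (Fin (n + 1) × Fin (n + 1))}
    (hV : Val a c L) (hV' : Val a c L') (hm : ∀ e, e ∈ L ↔ e ∈ L') (hac : (a, c) ∉ L)
    (hA : Eqv (L.filter fun e => e.1 ≠ a) (L'.filter fun e => e.1 ≠ a))
    (hC : Eqv (L.filter fun e => e.2 ≠ c) (L'.filter fun e => e.2 ≠ c)) : Eqv L L' := by
  have n1 := nd hV
  have n2 := nd hV'
  have key : ∀ x, a < x → x < c → (a, x) ∈ L → (x, c) ∈ L → False := by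
    intro x h1 h2 h3 h4
    obtain ⟨A, B, hL⟩ := List.append_of_mem h4
    have v := hV A (x, c) B hL
    by_cases h : (a, x) ∈ A
    · apply hac
      rw [hL]
      exact List.mem_append_left _ ((v.2.2.2.2.2.1 a le_rfl h1).1 h)
    · have hB : (a, x) ∈ B := by
        rw [hL] at h3
        exact inS h3 h (fun h => h1.ne (congrArg Prod.fst h))
      obtain ⟨C, D, rfl⟩ := List.append_of_mem hB
      have v2 := hV (A ++ (x, c) :: C) (a, x) D (by rw [hL]; simp)
      have := (v2.2.2.2.2.1 c h2 le_rfl).1 (by simp)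
      apply hac
      rw [hL]
      have e : A ++ (x, c) :: (C ++ (a, x) :: D) = (A ++ (x, c) :: C) ++ (a, x) :: D := by simp
      rw [e]
      exact List.mem_append_left _ this
  intro x
  unfold loc
  refine eq_of_order (n1.filter _) (n2.filter _) (fun e => ?_) (fun e f hb => ?_)
  · rw [List.mem_filter, List.mem_filter, hm]
  · have hbL : [e, f].Sublist L := hb.trans List.filter_sublist
    have he : e ∈ L := hbL.subset (by simp)
    have hf : f ∈ L := hbL.subset (by simp)
    have hex : e.1 = x ∨ e.2 = x := by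
      have := (List.mem_filter.1 (hb.subset (by simp : e ∈ [e, f]))).2
      simpa using this
    have hfx : f.1 = x ∨ f.2 = x := by
      have := (List.mem_filter.1 (hb.subset (by simp : f ∈ [e, f]))).2
      simpa using this
    have be := bd hV he
    have bf := bd hV hf
    suffices hgoal : [e, f].Sublist L' by
      have := hgoal.filter (fun e => decide (e.1 = x ∨ e.2 = x))
      rw [List.filter_cons_of_pos (by simpa using hex),
        List.filter_cons_of_pos (by simpa using hfx)] at this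
      exact this
    by_cases c1 : e.1 ≠ a ∧ f.1 ≠ a
    · exact tr hA x hex hfx (by simpa using c1.1) (by simpa using c1.2) hbL
    by_cases c2 : e.2 ≠ c ∧ f.2 ≠ c
    · exact tr hC x hex hfx (by simpa using c2.1) (by simpa using c2.2) hbL
    exfalso
    have eac : e ≠ (a, c) := by rintro rfl; exact hac he
    have fac : f ≠ (a, c) := by rintro rfl; exact hac hf
    have hx : a < x ∧ x < c ∧ ((e = (a, x) ∧ f = (x, c)) ∨ (f = (a, x) ∧ e = (x, c))) := by
      have k1 : ¬ (e.1 ≠ a ∧ f.1 ≠ a) := c1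
      have k2 : ¬ (e.2 ≠ c ∧ f.2 ≠ c) := c2
      have k3 : ¬ (e.1 = a ∧ e.2 = c) := fun h => eac (Prod.ext h.1 h.2)
      have k4 : ¬ (f.1 = a ∧ f.2 = c) := fun h => fac (Prod.ext h.1 h.2)
      rw [Prod.ext_iff, Prod.ext_iff, Prod.ext_iff, Prod.ext_iff]
      simp only
      clear hA hC hm key hV hV' n1 n2 hb hbL
      simp only [Fin.ext_iff, Fin.lt_def, Fin.le_def, ne_eq] at *
      omega
    obtain ⟨hx1, hx2, ⟨rfl, rfl⟩ | ⟨rfl, rfl⟩⟩ := hx
    · exact key x hx1 hx2 he hf
    · exact key x hx1 hx2 hf he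

theorem t_E2 : S_E2 := by
  intro n q a c L L' hq hac hV hV' hm hA hC hval
  by_cases hmem : (a, c) ∈ L
  · obtain ⟨P, S, rfl⟩ := List.append_of_mem hmem
    obtain ⟨P', S', rfl⟩ := List.append_of_mem ((hm _).1 hmem)
    have n1 := nd hV
    have n2 := nd hV'
    have nest : (∀ z, (a, z) ∈ P → (a, z) ∈ P') ∨ (∀ z, (a, z) ∈ P' → (a, z) ∈ P) := by
      by_contra hcon
      push Not at hcon
      obtain ⟨⟨z, h1, h2⟩, w, h3, h4⟩ := hcon
      have zc : z ≠ c := by rintro rfl; exact (notS n1 h1).1 rfl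
      have wc : w ≠ c := by rintro rfl; exact (notS n2 h3).1 rfl
      have h5 : (a, w) ∈ S := inS ((hm _).2 (by simp [h3])) h4 (by
        intro h; exact wc (congrArg Prod.snd h))
      have h6 : (a, z) ∈ S' := inS ((hm _).1 (by simp [h1])) h2 (by
        intro h; exact zc (congrArg Prod.snd h))
      have h7 : [(a, z), (a, w)].Sublist (P ++ (a, c) :: S) := bef_split' h1 (by simp [h5])
      have h8 := tr hC a (Or.inl rfl) (Or.inl rfl) (by simpa using zc) (by simpa using wc) h7
      exact asymm n2 h8 (bef_split' h3 (by simp [h6]))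
    rcases nest with hT | hT
    · rcases mono q hq hac hV' _ P S hV hm hA hC hT rfl with h | h
      · exact h.1
      · exact absurd hval h.ne'
    · rcases mono q hq hac hV _ P' S' hV' (fun e => (hm e).symm) (fun x => (hA x).symm)
        (fun x => (hC x).symm) hT rfl with h | h
      · exact fun x => (h.1 x).symm
      · exact absurd hval h.ne
  · exact no_ac hV hV' hm hmem hA hC

end Pool.Agent.X75.BS
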