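import Pool.Agent.X75.BS.E1

namespace Pool.Agent.X75.BS

open Pool.Agent.X189.BS

variable {n : ℕ}

/-- the local condition at a crossing with history `H`. -/
def V (a c : Fin (n + 1)) (H : Set (Fin (n + 1) × Fin (n + 1)))
    (e : Fin (n + 1) × Fin (n + 1)) : Prop :=
  a ≤ e.1 ∧ e.1 < e.2 ∧ e.2 ≤ c ∧ e ∉ H ∧
    (∀ z, e.2 < z → z ≤ c → ((e.2, z) ∈ H ↔ (e.1, z) ∈ H)) ∧
    (∀ z, a ≤ z → z < e.1 → ((z, e.1) ∈ H ↔ (z, e.2) ∈ H)) ∧
    (∀ z, e.1 < z → z < e.2 → ((e.1, z) ∈ H ↔ (z, e.2) ∉ H))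

def VV (a c : Fin (n + 1)) : Set (Fin (n + 1) × Fin (n + 1)) →
    List (Fin (n + 1) × Fin (n + 1)) → Prop
  | _, [] => True
  | H, e :: S => V a c H e ∧ VV a c (insert e H) S

theorem VV_append (a c : Fin (n + 1)) (A B : List (Fin (n + 1) × Fin (n + 1))) :
    ∀ H, VV a c H (A ++ B) ↔ VV a c H A ∧ VV a c (H ∪ {x | x ∈ A}) B := by
  induction A with
  | nil => intro H; simp [VV]
  | cons e A ih =>
    intro H
    rw [List.cons_append, VV, VV, ih, and_assoc]
    have : insert e H ∪ {x | x ∈ A} = H ∪ {x | x ∈ e :: A} := by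
      ext x; simp only [Set.mem_union, Set.mem_insert_iff, Set.mem_setOf_eq, List.mem_cons]; tauto
    rw [this]

theorem VV_iff (a c : Fin (n + 1)) (L : List (Fin (n + 1) × Fin (n + 1))) :
    ∀ H, VV a c H L ↔ ∀ P e S, L = P ++ e :: S → V a c (H ∪ {x | x ∈ P}) e := by
  induction L with
  | nil => intro H; simp [VV]
  | cons f L ih =>
    intro H
    rw [VV, ih]
    constructor
    · rintro ⟨h1, h2⟩ P e S h
      cases P with
      | nil =>
        rw [List.nil_append, List.cons.injEq] at h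
        rw [← h.1]; simpa using h1
      | cons p P =>
        rw [List.cons_append, List.cons.injEq] at h
        have := h2 P e S h.2
        have e1 : insert f H ∪ {x | x ∈ P} = H ∪ {x | x ∈ p :: P} := by
          rw [← h.1]
          ext x; simp only [Set.mem_union, Set.mem_insert_iff, Set.mem_setOf_eq, List.mem_cons]
          tauto
        rwa [e1] at this
    · intro h
      refine ⟨by simpa using h [] f L rfl, fun P e S hL => ?_⟩
      have := h (f :: P) e S (by rw [hL]; rfl)
      have e1 : insert f H ∪ {x | x ∈ P} = H ∪ {x | x ∈ f :: P} := by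
        ext x; simp only [Set.mem_union, Set.mem_insert_iff, Set.mem_setOf_eq, List.mem_cons]
        tauto
      rwa [e1]

theorem Val_iff (a c : Fin (n + 1)) (L : List (Fin (n + 1) × Fin (n + 1))) :
    Val a c L ↔ VV a c ∅ L := by
  rw [VV_iff]
  unfold Val V
  simp only [Set.empty_union, Set.mem_setOf_eq]

def Dj (e f : Fin (n + 1) × Fin (n + 1)) : Prop :=
  e.1 ≠ f.1 ∧ e.1 ≠ f.2 ∧ e.2 ≠ f.1 ∧ e.2 ≠ f.2

theorem Dj.symm {e f : Fin (n + 1) × Fin (n + 1)} (h : Dj e f) : Dj f e :=
  ⟨h.1.symm, h.2.2.1.symm, h.2.1.symm, h.2.2.2.symm⟩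

theorem V_insert {a c : Fin (n + 1)} {H : Set (Fin (n + 1) × Fin (n + 1))}
    {e f : Fin (n + 1) × Fin (n + 1)} (h : Dj e f) : V a c (insert f H) e ↔ V a c H e := by
  obtain ⟨h1, h2, h3, h4⟩ := h
  obtain ⟨e1, e2⟩ := e
  obtain ⟨f1, f2⟩ := f
  simp only at h1 h2 h3 h4
  unfold V
  simp only [Set.mem_insert_iff, Prod.mk.injEq, h1, h2, h3, h4, false_and, and_false, false_or]

theorem vstep_comm (q : ℤ) (X : Fin (n + 1) → ℤ) {e f : Fin (n + 1) × Fin (n + 1)} (h : Dj e f) :
    vstep q (vstep q X e) f = vstep q (vstep q X f) e := by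
  obtain ⟨h1, h2, h3, h4⟩ := h
  funext z
  unfold vstep
  simp only [h1, h2, h3, h4, h1.symm, h2.symm, h3.symm, h4.symm, or_self, if_false, true_or,
    or_true, if_true]
  by_cases hz : z = e.1 ∨ z = e.2
  · by_cases hz' : z = f.1 ∨ z = f.2
    · exfalso
      rcases hz with hz | hz <;> rcases hz' with hz' | hz'
      · exact h1 (hz.symm.trans hz')
      · exact h2 (hz.symm.trans hz')
      · exact h3 (hz.symm.trans hz')
      · exact h4 (hz.symm.trans hz')
    · simp only [hz, hz', if_true, if_false]; ring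
  · by_cases hz' : z = f.1 ∨ z = f.2
    · simp only [hz, hz', if_true, if_false]; ring
    · simp only [hz, hz', if_false]

structure Sim (q : ℤ) (a c : Fin (n + 1)) (L L' : List (Fin (n + 1) × Fin (n + 1))) : Prop where
  fold : ∀ X, L.foldl (vstep q) X = L'.foldl (vstep q) X
  vv : ∀ H, VV a c H L ↔ VV a c H L'
  loc : ∀ x, loc x L = loc x L'
  mem : ∀ e, e ∈ L ↔ e ∈ L'

theorem Sim.refl (q : ℤ) (a c : Fin (n + 1)) (L : List (Fin (n + 1) × Fin (n + 1))) :
    Sim q a c L L := ⟨fun _ => rfl, fun _ => Iff.rfl, fun _ => rfl, fun _ => Iff.rfl⟩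

theorem Sim.trans {q : ℤ} {a c : Fin (n + 1)} {L L' L'' : List (Fin (n + 1) × Fin (n + 1))}
    (h : Sim q a c L L') (h' : Sim q a c L' L'') : Sim q a c L L'' :=
  ⟨fun X => (h.fold X).trans (h'.fold X), fun H => (h.vv H).trans (h'.vv H),
    fun x => (h.loc x).trans (h'.loc x), fun e => (h.mem e).trans (h'.mem e)⟩

theorem Sim.symm {q : ℤ} {a c : Fin (n + 1)} {L L' : List (Fin (n + 1) × Fin (n + 1))}
    (h : Sim q a c L L') : Sim q a c L' L :=
  ⟨fun X => (h.fold X).symm, fun H => (h.vv H).symm,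
    fun x => (h.loc x).symm, fun e => (h.mem e).symm⟩

theorem Sim.app {q : ℤ} {a c : Fin (n + 1)} {L L' : List (Fin (n + 1) × Fin (n + 1))}
    (h : Sim q a c L L') (A B : List (Fin (n + 1) × Fin (n + 1))) :
    Sim q a c (A ++ L ++ B) (A ++ L' ++ B) := by
  refine ⟨fun X => ?_, fun H => ?_, fun x => ?_, fun e => ?_⟩
  · simp only [List.foldl_append, h.fold]
  · have hs : {x | x ∈ L} = {x | x ∈ L'} := Set.ext h.mem
    have hs' : {x | x ∈ A ++ L} = {x | x ∈ A ++ L'} := by
      ext x
      show x ∈ A ++ L ↔ x ∈ A ++ L'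
      rw [List.mem_append, List.mem_append, h.mem]
    rw [VV_append, VV_append, VV_append, VV_append, h.vv, hs']
  · unfold Pool.Agent.X189.BS.loc
    have := h.loc x
    unfold Pool.Agent.X189.BS.loc at this
    simp only [List.filter_append, this]
  · simp only [List.mem_append, h.mem]

theorem Sim.swap (q : ℤ) (a c : Fin (n + 1)) {e f : Fin (n + 1) × Fin (n + 1)} (h : Dj e f) :
    Sim q a c [e, f] [f, e] := by
  refine ⟨fun X => ?_, fun H => ?_, fun x => ?_, fun g => ?_⟩
  · simp only [List.foldl_cons, List.foldl_nil]; exact vstep_comm q X h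
  · simp only [VV, and_true]
    rw [V_insert h.symm, V_insert h]; exact and_comm
  · unfold Pool.Agent.X189.BS.loc
    obtain ⟨h1, h2, h3, h4⟩ := h
    by_cases hx : e.1 = x ∨ e.2 = x
    · have hx' : ¬(f.1 = x ∨ f.2 = x) := by
        rintro (h' | h') <;> rcases hx with h | h
        · exact h1 (h.trans h'.symm)
        · exact h3 (h.trans h'.symm)
        · exact h2 (h.trans h'.symm)
        · exact h4 (h.trans h'.symm)
      simp [List.filter_cons, hx, hx']
    · simp [List.filter_cons, hx]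
  · simp only [List.mem_cons, List.not_mem_nil, or_false]; exact or_comm

/-- moving `e` to the right past crossings disjoint from it. -/
theorem Sim.move (q : ℤ) (a c : Fin (n + 1)) {e : Fin (n + 1) × Fin (n + 1)}
    (M : List (Fin (n + 1) × Fin (n + 1))) (h : ∀ f ∈ M, Dj e f) :
    Sim q a c (e :: M) (M ++ [e]) := by
  induction M with
  | nil => exact Sim.refl _ _ _ _
  | cons f M ih =>
    have h1 := (Sim.swap q a c (h f (by simp))).app [] M
    have h2 := (ih fun g hg => h g (by simp [hg])).app [f] []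
    simp only [List.nil_append, List.append_nil] at h1 h2
    exact h1.trans (by simpa using h2)

end Pool.Agent.X75.BS
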