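import Pool.Agent.X75.BS.E2a

namespace Pool.Agent.X75.BS

open Pool.Agent.X189.BS

variable {n : ℕ}

theorem bef_split {α : Type} {A B : List α} {e f : α} (hf : f ∈ B) :
    [e, f].Sublist (A ++ e :: B) :=
  (List.Sublist.cons_cons e (List.singleton_sublist.2 hf)).trans (List.sublist_append_right A _)

theorem bef_split' {α : Type} {A B : List α} {e f : α} (he : e ∈ A) (hf : f ∈ B) :
    [e, f].Sublist (A ++ B) :=
  List.Sublist.append (List.singleton_sublist.2 he) (List.singleton_sublist.2 hf)

theorem asymm {α : Type} {e f : α} : ∀ {L : List α}, L.Nodup → [e, f].Sublist L →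
    [f, e].Sublist L → False
  | [], _, h, _ => by cases h
  | x :: T, hn, h1, h2 => by
    rw [List.nodup_cons] at hn
    cases h1 with
    | cons _ h1 =>
      cases h2 with
      | cons _ h2 => exact asymm hn.2 h1 h2
      | cons_cons _ h2 => exact hn.1 (h1.subset (by simp))
    | cons_cons _ h1 =>
      cases h2 with
      | cons _ h2 => exact hn.1 (h2.subset (by simp))
      | cons_cons _ h2 => exact hn.1 (h1.subset (by simp))

theorem tr {L L' : List (Fin (n + 1) × Fin (n + 1))} {p : Fin (n + 1) × Fin (n + 1) → Bool}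
    (h : Eqv (L.filter p) (L'.filter p)) {e f : Fin (n + 1) × Fin (n + 1)} (x : Fin (n + 1))
    (hx : e.1 = x ∨ e.2 = x) (hx' : f.1 = x ∨ f.2 = x) (he : p e = true) (hf : p f = true)
    (hb : [e, f].Sublist L) : [e, f].Sublist L' := by
  have h1 : [e, f].Sublist (L.filter p) := by
    have := hb.filter p
    simpa [List.filter_cons, he, hf] using this
  have h2 : [e, f].Sublist (loc x (L.filter p)) := by
    have := h1.filter (fun e => decide (e.1 = x ∨ e.2 = x))
    rw [List.filter_cons_of_pos (by simpa using hx), List.filter_cons_of_pos (by simpa using hx')]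
      at this
    exact this
  rw [h x] at h2
  exact (h2.trans List.filter_sublist).trans List.filter_sublist

theorem tr' {L L' : List (Fin (n + 1) × Fin (n + 1))}
    (h : Eqv L L') {e f : Fin (n + 1) × Fin (n + 1)} (x : Fin (n + 1))
    (hx : e.1 = x ∨ e.2 = x) (hx' : f.1 = x ∨ f.2 = x)
    (hb : [e, f].Sublist L) : [e, f].Sublist L' := by
  have h2 : [e, f].Sublist (loc x L) := by
    have := hb.filter (fun e => decide (e.1 = x ∨ e.2 = x))
    rw [List.filter_cons_of_pos (by simpa using hx), List.filter_cons_of_pos (by simpa using hx')]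
      at this
    exact this
  rw [h x] at h2
  exact h2.trans List.filter_sublist

theorem VV_nodup (a c : Fin (n + 1)) (L : List (Fin (n + 1) × Fin (n + 1))) :
    ∀ H, VV a c H L → L.Nodup ∧ ∀ e ∈ L, e ∉ H ∧ a ≤ e.1 ∧ e.1 < e.2 ∧ e.2 ≤ c := by
  induction L with
  | nil => intro H _; simp
  | cons f L ih =>
    rintro H ⟨h1, h2⟩
    obtain ⟨i1, i2⟩ := ih _ h2
    refine ⟨List.nodup_cons.2 ⟨fun h => (i2 f h).1 (Set.mem_insert _ _), i1⟩, ?_⟩
    intro e he
    rcases List.mem_cons.1 he with rfl | he
    · exact ⟨h1.2.2.2.1, h1.1, h1.2.1, h1.2.2.1⟩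
    · exact ⟨fun h => (i2 e he).1 (Set.mem_insert_of_mem _ h), (i2 e he).2⟩

theorem not_Dj {e f : Fin (n + 1) × Fin (n + 1)} (h : ¬ Dj e f) :
    ∃ x, (e.1 = x ∨ e.2 = x) ∧ (f.1 = x ∨ f.2 = x) := by
  by_contra hc
  push Not at hc
  apply h
  refine ⟨fun h => (hc e.1 (Or.inl rfl)).1 h.symm, fun h => (hc e.1 (Or.inl rfl)).2 h.symm,
    fun h => (hc e.2 (Or.inr rfl)).1 h.symm, fun h => (hc e.2 (Or.inr rfl)).2 h.symm⟩

theorem eqv_fold (q : ℤ) (L : List (Fin (n + 1) × Fin (n + 1))) :
    ∀ L' : List (Fin (n + 1) × Fin (n + 1)), L.Nodup → L'.Nodup → (∀ e, e ∈ L ↔ e ∈ L') →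
      Eqv L L' → ∀ X, L.foldl (vstep q) X = L'.foldl (vstep q) X := by
  induction L with
  | nil =>
    intro L' _ _ hm _ X
    have : L' = [] := List.eq_nil_iff_forall_not_mem.2 fun e he => by
      have := (hm e).2 he; simp at this
    rw [this]
  | cons e T ih =>
    intro L' hn hn' hm hE X
    obtain ⟨A, B, rfl⟩ := List.append_of_mem ((hm e).1 (by simp))
    have hnd := List.nodup_cons.1 hn
    have hA : ∀ f ∈ A, Dj e f := by
      intro f hf
      by_contra hD
      obtain ⟨x, hx, hx'⟩ := not_Dj hD
      have hfe : f ≠ e := by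
        rintro rfl
        have := List.nodup_append.1 hn'
        exact this.2.2 f hf f (by simp) rfl
      have hfT : f ∈ T := by
        have := (hm f).2 (by simp [hf])
        rcases List.mem_cons.1 this with h | h
        · exact absurd h hfe
        · exact h
      have h1 : [e, f].Sublist (e :: T) := bef_split (A := []) hfT
      exact asymm hn' (tr' hE x hx hx' h1) (bef_split' hf (by simp))
    have sim := (Sim.move q 0 0 A hA).app [] B
    simp only [List.nil_append] at sim
    have sim' : Sim q 0 0 (e :: (A ++ B)) (A ++ e :: B) := by simpa using sim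
    rw [← sim'.fold X, List.foldl_cons, List.foldl_cons]
    have hn2 : (e :: (A ++ B)).Nodup := (List.perm_middle.nodup_iff).1 hn'
    have hn3 := List.nodup_cons.1 hn2
    apply ih (A ++ B) hnd.2 hn3.2
    · intro g
      have h1 := hm g
      rw [← sim'.mem g] at h1
      simp only [List.mem_cons] at h1
      constructor
      · intro hg
        rcases h1.1 (Or.inr hg) with h | h
        · exact absurd (h ▸ hg) hnd.1
        · exact h
      · intro hg
        rcases h1.2 (Or.inr hg) with h | h
        · exact absurd (h ▸ hg) hn3.1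
        · exact h
    · intro x
      have h1 : loc x (e :: T) = loc x (e :: (A ++ B)) := (hE x).trans (sim'.loc x).symm
      unfold loc at h1 ⊢
      rw [List.filter_cons, List.filter_cons] at h1
      split_ifs at h1 with hx
      · exact (List.cons.inj h1).2
      · exact h1

/-- two duplicate free lists with the same elements and compatible orders are equal. -/
theorem eq_of_order {α : Type} {l1 l2 : List α} (h1 : l1.Nodup) (h2 : l2.Nodup)
    (hm : ∀ e, e ∈ l1 ↔ e ∈ l2) (ho : ∀ e f, [e, f].Sublist l1 → [e, f].Sublist l2) : l1 = l2 := by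
  have hp : l1.Perm l2 := (List.perm_ext_iff_of_nodup h1 h2).2 hm
  refine List.Perm.eq_of_pairwise (le := fun e f => [e, f].Sublist l2) ?_ ?_ ?_ hp
  · intro x y _ _ hxy hyx
    exact (asymm h2 hxy hyx).elim
  · exact List.pairwise_iff_forall_sublist.2 fun h => ho _ _ h
  · exact List.pairwise_iff_forall_sublist.2 fun h => h

end Pool.Agent.X75.BS
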