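import Pool.Agent.X75.BS.E2b

namespace Pool.Agent.X75.BS

open Pool.Agent.X189.BS

variable {n : ℕ}

theorem flipV {a b c : Fin (n + 1)} (hab : a < b) (hbc : b < c)
    (H : Set (Fin (n + 1) × Fin (n + 1))) (B : List (Fin (n + 1) × Fin (n + 1)))
    (h : VV a c H ((b, c) :: (a, c) :: (a, b) :: B)) :
    VV a c H ((a, b) :: (a, c) :: (b, c) :: B) := by
  have hac := hab.trans hbc
  simp only [VV] at h ⊢
  obtain ⟨v1, v2, v3, hB⟩ := h
  unfold V at v1 v2 v3 ⊢
  simp only [Set.mem_insert_iff, Prod.mk.injEq, not_or, not_and, hab.ne, hab.ne', hbc.ne, hbc.ne',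
    hac.ne, hac.ne', false_and, and_false, false_or, true_and, and_true, not_false_eq_true,
    false_implies, implies_true, imp_false] at v1 v2 v3 ⊢
  obtain ⟨-, -, -, a4, -, a6, a7⟩ := v1
  obtain ⟨-, -, -, b4, -, -, b7⟩ := v2
  obtain ⟨-, -, -, c4, c5, -, c7⟩ := v3
  refine ⟨⟨le_rfl, hab, hbc.le, c4, ?_, ?_, ?_⟩, ⟨le_rfl, hac, le_rfl, b4, ?_, ?_, ?_⟩,
    ⟨hab.le, hbc, le_rfl, a4, ?_, ?_, ?_⟩, ?_⟩
  · intro z hz hzc
    by_cases h : z = c
    · subst h
      exact ⟨fun h => absurd h a4, fun h => absurd h b4⟩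
    · have := c5 z hz hzc
      simp only [h, false_or] at this
      exact this
  · intro z h1 h2
    exact absurd (lt_of_lt_of_le h2 h1) (lt_irrefl _)
  · intro z h1 h2
    have hzc : z ≠ c := (h2.trans hbc).ne
    have := c7 z h1 h2
    simp only [hzc, false_or] at this
    exact this
  · intro z h1 h2
    exact absurd (lt_of_lt_of_le h1 h2) (lt_irrefl _)
  · intro z h1 h2
    exact absurd (lt_of_lt_of_le h2 h1) (lt_irrefl _)
  · intro z h1 h2
    by_cases h : z = b
    · subst h
      simp only [true_or, true_iff]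
      exact a4
    · have := b7 z h1 h2
      simp only [h, false_or, not_false_eq_true, true_and, false_implies, implies_true] at this ⊢
      exact this
  · intro z h1 h2
    exact absurd (lt_of_lt_of_le h1 h2) (lt_irrefl _)
  · intro z h1 h2
    by_cases h : z = a
    · subst h
      simp
    · have := a6 z h1 h2
      simp only [h, false_or]
      exact this
  · intro z h1 h2
    have hza : z ≠ a := (hab.trans h1).ne'
    have := a7 z h1 h2
    simp only [hza, false_or, not_false_eq_true, true_and, false_implies, implies_true]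
    exact this
  · have : insert (b, c) (insert (a, c) (insert (a, b) H)) =
        insert (a, b) (insert (a, c) (insert (b, c) H)) := by
      ext x; simp only [Set.mem_insert_iff]; tauto
    rw [this]; exact hB

theorem eqv_filter {L L' : List (Fin (n + 1) × Fin (n + 1))} (h : Eqv L L')
    (p : Fin (n + 1) × Fin (n + 1) → Bool) : Eqv (L.filter p) (L'.filter p) := by
  intro x
  have := congrArg (List.filter p) (h x)
  unfold loc at this ⊢
  rw [List.filter_filter, List.filter_filter] at this ⊢
  simp only [Bool.and_comm] at this ⊢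
  exact this

theorem first_of {α : Type} (p : α → Prop) : ∀ (S : List α), (∃ x ∈ S, p x) →
    ∃ M x S2, S = M ++ x :: S2 ∧ p x ∧ ∀ y ∈ M, ¬ p y
  | [], h => by obtain ⟨x, hx, _⟩ := h; cases hx
  | s :: S, h => by
    by_cases hs : p s
    · exact ⟨[], s, S, rfl, hs, by simp⟩
    · have : ∃ x ∈ S, p x := by
        obtain ⟨x, hx, hp⟩ := h
        rcases List.mem_cons.1 hx with rfl | hx
        · exact absurd hp hs
        · exact ⟨x, hx, hp⟩
      obtain ⟨M, x, S2, h1, h2, h3⟩ := first_of p S this
      refine ⟨s :: M, x, S2, by rw [h1]; rfl, h2, ?_⟩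
      intro y hy
      rcases List.mem_cons.1 hy with rfl | hy
      · exact hs
      · exact h3 y hy

/-- side facts -/
theorem F1 {a c : Fin (n + 1)} {P S : List (Fin (n + 1) × Fin (n + 1))}
    (hV : Val a c (P ++ (a, c) :: S)) {z : Fin (n + 1)} (h1 : a < z) (h2 : z < c) :
    (a, z) ∈ P ↔ (z, c) ∉ P :=
  (hV P (a, c) S rfl).2.2.2.2.2.2 z h1 h2

theorem nd {a c : Fin (n + 1)} {L : List (Fin (n + 1) × Fin (n + 1))} (hV : Val a c L) :
    L.Nodup := (VV_nodup a c L ∅ ((Val_iff a c L).1 hV)).1

theorem bd {a c : Fin (n + 1)} {L : List (Fin (n + 1) × Fin (n + 1))} (hV : Val a c L)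
    {e : Fin (n + 1) × Fin (n + 1)} (he : e ∈ L) : a ≤ e.1 ∧ e.1 < e.2 ∧ e.2 ≤ c :=
  ((VV_nodup a c L ∅ ((Val_iff a c L).1 hV)).2 e he).2

theorem notS {α : Type} {P S : List α} {x y : α} (hn : (P ++ x :: S).Nodup) (h : y ∈ P) :
    y ≠ x ∧ y ∉ S := by
  have := (List.nodup_append.1 hn).2.2 y h
  exact ⟨this x (by simp), fun h' => this y (by simp [h']) rfl⟩

theorem inS {α : Type} {P S : List α} {x y : α} (h : y ∈ P ++ x :: S) (h1 : y ∉ P) (h2 : y ≠ x) :
    y ∈ S := by
  simp only [List.mem_append, List.mem_cons] at h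
  tauto

/-- if the two decompositions have the same sides then the orders agree. -/
theorem same_T {a c : Fin (n + 1)} (hac : a < c) {P S P' S' : List (Fin (n + 1) × Fin (n + 1))}
    (hV : Val a c (P ++ (a, c) :: S)) (hV' : Val a c (P' ++ (a, c) :: S'))
    (hm : ∀ e, e ∈ P ++ (a, c) :: S ↔ e ∈ P' ++ (a, c) :: S')
    (hA : Eqv ((P ++ (a, c) :: S).filter fun e => e.1 ≠ a)
      ((P' ++ (a, c) :: S').filter fun e => e.1 ≠ a))
    (hC : Eqv ((P ++ (a, c) :: S).filter fun e => e.2 ≠ c)
      ((P' ++ (a, c) :: S').filter fun e => e.2 ≠ c))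
    (hT : ∀ z, (a, z) ∈ P ↔ (a, z) ∈ P') : Eqv (P ++ (a, c) :: S) (P' ++ (a, c) :: S') := by
  intro x
  have n1 := nd hV
  have n2 := nd hV'
  have side : ∀ g, g ∈ P ++ (a, c) :: S → (g.1 = a ∨ g.2 = c) → (g ∈ P ↔ g ∈ P') := by
    rintro ⟨u, v⟩ hg h
    by_cases hu : u = a
    · subst hu; exact hT v
    · have hv : v = c := by simpa [hu] using h
      subst hv
      have b := bd hV hg
      have h1 : a < u := lt_of_le_of_ne b.1 (Ne.symm hu)
      have e1 := F1 hV h1 b.2.1
      have e2 := F1 hV' h1 b.2.1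
      have e3 := hT u
      tauto
  unfold loc
  refine eq_of_order (n1.filter _) (n2.filter _) (fun e => ?_) (fun e f hb => ?_)
  · rw [List.mem_filter, List.mem_filter, hm]
  · have hbL : [e, f].Sublist (P ++ (a, c) :: S) := hb.trans List.filter_sublist
    have he : e ∈ P ++ (a, c) :: S := hbL.subset (by simp)
    have hf : f ∈ P ++ (a, c) :: S := hbL.subset (by simp)
    have hex : e.1 = x ∨ e.2 = x := by
      have := (List.mem_filter.1 (hb.subset (by simp : e ∈ [e, f]))).2
      simpa using this
    have hfx : f.1 = x ∨ f.2 = x := by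
      have := (List.mem_filter.1 (hb.subset (by simp : f ∈ [e, f]))).2
      simpa using this
    have be := bd hV he
    have bf := bd hV hf
    have hne : e ≠ f := by
      rintro rfl
      exact asymm n1 hbL hbL
    suffices hgoal : [e, f].Sublist (P' ++ (a, c) :: S') by
      have := hgoal.filter (fun e => decide (e.1 = x ∨ e.2 = x))
      rw [List.filter_cons_of_pos (by simpa using hex),
        List.filter_cons_of_pos (by simpa using hfx)] at this
      exact this
    by_cases c1 : e.1 ≠ a ∧ f.1 ≠ a
    · exact tr hA x hex hfx (by simpa using c1.1) (by simpa using c1.2) hbL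
    by_cases c2 : e.2 ≠ c ∧ f.2 ≠ c
    · exact tr hC x hex hfx (by simpa using c2.1) (by simpa using c2.2) hbL
    -- both special
    have spe : e.1 = a ∨ e.2 = c := by
      by_contra hcon
      push Not at hcon
      have h1 : f.1 = a := by by_contra h; exact c1 ⟨hcon.1, h⟩
      have h2 : f.2 = c := by by_contra h; exact c2 ⟨hcon.2, h⟩
      rcases hfx with hx | hx
      · rw [← hx, h1] at hex
        rcases hex with h | h
        · exact hcon.1 h
        · have := lt_of_le_of_lt be.1 be.2.1; rw [h] at this; exact lt_irrefl _ this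
      · rw [← hx, h2] at hex
        rcases hex with h | h
        · have := lt_of_lt_of_le be.2.1 be.2.2; rw [h] at this; exact lt_irrefl _ this
        · exact hcon.2 h
    have spf : f.1 = a ∨ f.2 = c := by
      by_contra hcon
      push Not at hcon
      have h1 : e.1 = a := by by_contra h; exact c1 ⟨h, hcon.1⟩
      have h2 : e.2 = c := by by_contra h; exact c2 ⟨h, hcon.2⟩
      rcases hex with hx | hx
      · rw [← hx, h1] at hfx
        rcases hfx with h | h
        · exact hcon.1 h
        · have := lt_of_le_of_lt bf.1 bf.2.1; rw [h] at this; exact lt_irrefl _ this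
      · rw [← hx, h2] at hfx
        rcases hfx with h | h
        · have := lt_of_lt_of_le bf.2.1 bf.2.2; rw [h] at this; exact lt_irrefl _ this
        · exact hcon.2 h
    -- e is in P or is (a,c); f is in S or is (a,c)
    by_cases eac : e = (a, c)
    · have hfP : f ∉ P := by
        intro h
        exact asymm n1 hbL (bef_split' h (by rw [eac]; simp))
      have hfP' : f ∉ P' := fun h => hfP ((side f hf spf).2 h)
      have hfS' : f ∈ S' := inS ((hm f).1 hf) hfP' (by rw [← eac]; exact hne.symm)
      rw [eac]; exact bef_split hfS'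
    by_cases fac : f = (a, c)
    · have heP : e ∈ P := by
        by_contra h
        have : e ∈ S := inS he h eac
        exact asymm n1 hbL (by rw [fac]; exact bef_split this)
      have heP' : e ∈ P' := (side e he spe).1 heP
      rw [fac]; exact bef_split' heP' (by simp)
    -- one is (a,x), the other (x,c)
    have hx : a < x ∧ x < c ∧ ((e = (a, x) ∧ f = (x, c)) ∨ (f = (a, x) ∧ e = (x, c))) := by
      have k1 : ¬ (e.1 ≠ a ∧ f.1 ≠ a) := c1
      have k2 : ¬ (e.2 ≠ c ∧ f.2 ≠ c) := c2
      have k3 : ¬ (e.1 = a ∧ e.2 = c) := fun h => eac (Prod.ext h.1 h.2)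
      have k4 : ¬ (f.1 = a ∧ f.2 = c) := fun h => fac (Prod.ext h.1 h.2)
      rw [Prod.ext_iff, Prod.ext_iff, Prod.ext_iff, Prod.ext_iff]
      simp only
      simp only [Fin.ext_iff, Fin.lt_def, Fin.le_def, ne_eq] at *
      omega
    have main : e ∈ P ∧ f ∉ P := by
      obtain ⟨hx1, hx2, ⟨rfl, rfl⟩ | ⟨rfl, rfl⟩⟩ := hx
      · have := F1 hV hx1 hx2
        by_contra hcon
        by_cases hh : (a, x) ∈ P
        · exact hcon ⟨hh, this.1 hh⟩
        · have h2 : (x, c) ∈ P := by
            by_contra h3; exact hh (this.2 h3)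
          have h3 : (a, x) ∈ S := inS he hh eac
          exact asymm n1 hbL (bef_split' h2 (by simp [h3]))
      · have := F1 hV hx1 hx2
        by_contra hcon
        by_cases hh : (a, x) ∈ P
        · have h2 : (x, c) ∉ P := this.1 hh
          have h3 : (x, c) ∈ S := inS he h2 eac
          exact asymm n1 hbL (bef_split' hh (by simp [h3]))
        · have h2 : (x, c) ∈ P := by
            by_contra h3; exact hh (this.2 h3)
          exact hcon ⟨h2, hh⟩
    have heP' : e ∈ P' := (side e he spe).1 main.1
    have hfP' : f ∉ P' := fun h => main.2 ((side f hf spf).2 h)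
    have hfS' : f ∈ S' := inS ((hm f).1 hf) hfP' fac
    exact bef_split' heP' (by simp [hfS'])

end Pool.Agent.X75.BS
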