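import Pool.Agent.X75.BS.E2c

namespace Pool.Agent.X75.BS

open Pool.Agent.X189.BS

variable {n : ℕ}

theorem flip_step (q : ℤ) {a c : Fin (n + 1)} (hq : 0 < q) (hac : a < c)
    {P S P' S' : List (Fin (n + 1) × Fin (n + 1))}
    (hV : Val a c (P ++ (a, c) :: S)) (hV' : Val a c (P' ++ (a, c) :: S'))
    (hm : ∀ e, e ∈ P ++ (a, c) :: S ↔ e ∈ P' ++ (a, c) :: S')
    (hA : Eqv ((P ++ (a, c) :: S).filter fun e => e.1 ≠ a)
      ((P' ++ (a, c) :: S').filter fun e => e.1 ≠ a))
    (hC : Eqv ((P ++ (a, c) :: S).filter fun e => e.2 ≠ c)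
      ((P' ++ (a, c) :: S').filter fun e => e.2 ≠ c))
    (b0 : Fin (n + 1)) (hb0 : (a, b0) ∈ P') (hb0' : (a, b0) ∉ P) :
    ∃ (b : Fin (n + 1)) (P3 S3 : List (Fin (n + 1) × Fin (n + 1))), (a, b) ∈ P' ∧ (a, b) ∉ P ∧
      (∀ z, (a, z) ∈ P3 ↔ ((a, z) ∈ P ∨ z = b)) ∧ Val a c (P3 ++ (a, c) :: S3) ∧
      (∀ e, e ∈ P3 ++ (a, c) :: S3 ↔ e ∈ P ++ (a, c) :: S) ∧
      Eqv ((P3 ++ (a, c) :: S3).filter fun e => e.1 ≠ a)
        ((P ++ (a, c) :: S).filter fun e => e.1 ≠ a) ∧
      Eqv ((P3 ++ (a, c) :: S3).filter fun e => e.2 ≠ c)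
        ((P ++ (a, c) :: S).filter fun e => e.2 ≠ c) ∧
      (P3 ++ (a, c) :: S3).foldl (vstep q) (Pi.single a 1) c <
        (P ++ (a, c) :: S).foldl (vstep q) (Pi.single a 1) c := by
  have n1 := nd hV
  have n2 := nd hV'
  have acP : (a, c) ∉ P := fun h => (notS n1 h).1 rfl
  have acP' : (a, c) ∉ P' := fun h => (notS n2 h).1 rfl
  have hb0S : (a, b0) ∈ S := inS ((hm _).2 (by simp [hb0])) hb0' (by
    intro h; exact acP' (h ▸ hb0))
  obtain ⟨M2, x, S2, hS, ⟨hx1, hx2⟩, hx3⟩ :=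
    first_of (fun y : Fin (n + 1) × Fin (n + 1) => y.1 = a ∧ y ∈ P') S ⟨(a, b0), hb0S, rfl, hb0⟩
  obtain ⟨a', b⟩ := x
  simp only at hx1 hx2 hx3
  subst hx1
  subst hS
  rename' a' => a
  have xL : (a, b) ∈ P ++ (a, c) :: (M2 ++ (a, b) :: S2) := by simp
  have bx := bd hV xL
  have hab : a < b := bx.2.1
  have hbc : b < c := lt_of_le_of_ne bx.2.2 (by rintro rfl; exact acP' hx2)
  have abP : (a, b) ∉ P := fun h => (notS n1 h).2 (by simp)
  have bcP : (b, c) ∈ P := by
    by_contra h; exact abP ((F1 hV hab hbc).2 h)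
  have bcP' : (b, c) ∉ P' := (F1 hV' hab hbc).1 hx2
  have bcS' : (b, c) ∈ S' := inS ((hm _).1 (by simp [bcP])) bcP' (by
    intro h; exact hab.ne' (congrArg Prod.fst h))
  -- no crossing of b between (b,c) and (a,b)
  have keyno : ∀ e : Fin (n + 1) × Fin (n + 1), e.1 ≠ a → e.2 ≠ c → (e.1 = b ∨ e.2 = b) →
      [(b, c), e].Sublist (P ++ (a, c) :: (M2 ++ (a, b) :: S2)) →
      [e, (a, b)].Sublist (P ++ (a, c) :: (M2 ++ (a, b) :: S2)) → False := by
    intro e h1 h2 h3 h4 h5
    have k1 := tr hA b (Or.inl rfl) h3 (by simpa using hab.ne') (by simpa using h1) h4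
    have k2 := tr hC b h3 (Or.inr rfl) (by simpa using h2) (by simpa using hbc.ne) h5
    have he : e ∈ P' ++ (a, c) :: S' := k1.subset (by simp)
    by_cases h : e ∈ P'
    · exact asymm n2 k1 (bef_split' h (by simp [bcS']))
    · have h' : e ∈ (a, c) :: S' := by
        rcases List.mem_append.1 he with h' | h'
        · exact absurd h' h
        · exact h'
      exact asymm n2 k2 (bef_split' hx2 h')
  have M2a : ∀ y ∈ M2, y.1 ≠ a := by
    intro y hy hya
    have yL : y ∈ P ++ (a, c) :: (M2 ++ (a, b) :: S2) := by simp [hy]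
    have yP' : y ∉ P' := fun h => hx3 y hy ⟨hya, h⟩
    have yne : y ≠ (a, c) := by
      rintro rfl
      have := (List.nodup_cons.1 (List.nodup_append.1 n1).2.1).1
      exact this (by simp [hy])
    have yS' : y ∈ S' := inS ((hm _).1 yL) yP' yne
    have h1 : [y, (a, b)].Sublist (P ++ (a, c) :: (M2 ++ (a, b) :: S2)) := by
      have : [y, (a, b)].Sublist (M2 ++ (a, b) :: S2) := bef_split' hy (by simp)
      exact (this.trans (List.sublist_cons_self _ _)).trans (List.sublist_append_right _ _)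
    have yc : y.2 ≠ c := fun h => yne (Prod.ext hya h)
    have h2 := tr hC a (Or.inl hya) (Or.inl rfl) (by simpa using yc) (by simpa using hbc.ne) h1
    exact asymm n2 h2 (bef_split' hx2 (by simp [yS']))
  have M2b : ∀ y ∈ M2, ¬ (y.1 = b ∨ y.2 = b) := by
    intro y hy hyb
    have yL : y ∈ P ++ (a, c) :: (M2 ++ (a, b) :: S2) := by simp [hy]
    have h1 : [y, (a, b)].Sublist (P ++ (a, c) :: (M2 ++ (a, b) :: S2)) := by
      have : [y, (a, b)].Sublist (M2 ++ (a, b) :: S2) := bef_split' hy (by simp)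
      exact (this.trans (List.sublist_cons_self _ _)).trans (List.sublist_append_right _ _)
    have h2 : [(b, c), y].Sublist (P ++ (a, c) :: (M2 ++ (a, b) :: S2)) :=
      bef_split' bcP (by simp [hy])
    have yc : y.2 ≠ c := by
      intro h
      have h3 : y.1 = b := by
        rcases hyb with h' | h'
        · exact h'
        · exact absurd (h'.symm.trans h) hbc.ne
      have : y = (b, c) := Prod.ext h3 h
      rw [this] at hy
      exact (notS n1 bcP).2 (by simp [hy])
    exact keyno y (M2a y hy) yc hyb h2 h1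
  obtain ⟨A, M1, hP⟩ := List.append_of_mem bcP
  subst hP
  have nP : (A ++ (b, c) :: M1).Nodup := (List.nodup_append.1 n1).1
  have hxS : (a, b) ∈ (a, c) :: (M2 ++ (a, b) :: S2) := by simp
  have M1P : ∀ y ∈ M1, y ∈ A ++ (b, c) :: M1 := fun y hy => by simp [hy]
  have bcM1 : (b, c) ∉ M1 := (List.nodup_cons.1 (List.nodup_append.1 nP).2.1).1
  have h4 : ∀ y ∈ M1, [(b, c), y].Sublist ((A ++ (b, c) :: M1) ++ (a, c) :: (M2 ++ (a, b) :: S2)) :=
    fun y hy => (bef_split (A := A) hy).trans (List.sublist_append_left _ _)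
  have M1b : ∀ y ∈ M1, ¬ (y.1 = b ∨ y.2 = b) := by
    intro y hy hyb
    have yP := M1P y hy
    have h5 : [y, (a, b)].Sublist ((A ++ (b, c) :: M1) ++ (a, c) :: (M2 ++ (a, b) :: S2)) :=
      bef_split' yP hxS
    have ya : y.1 ≠ a := by
      intro h
      have h3 : y.2 = b := by
        rcases hyb with h' | h'
        · exact absurd (h'.symm.trans h) hab.ne'
        · exact h'
      have : y = (a, b) := Prod.ext h h3
      rw [this] at yP
      exact abP yP
    have yc : y.2 ≠ c := by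
      intro h
      have h3 : y.1 = b := by
        rcases hyb with h' | h'
        · exact h'
        · exact absurd (h'.symm.trans h) hbc.ne
      have : y = (b, c) := Prod.ext h3 h
      rw [this] at hy
      exact bcM1 hy
    exact keyno y ya yc hyb (h4 y hy) h5
  have M1c : ∀ y ∈ M1, y.2 ≠ c := by
    rintro ⟨w, c'⟩ hy hyc
    simp only at hyc
    subst hyc
    rename' c' => c
    have yP := M1P _ hy
    have yL : (w, c) ∈ (A ++ (b, c) :: M1) ++ (a, c) :: (M2 ++ (a, b) :: S2) :=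
      List.mem_append_left _ yP
    have by' := bd hV yL
    simp only at by'
    have wa : w ≠ a := by rintro rfl; exact acP yP
    have haw : a < w := lt_of_le_of_ne by'.1 (Ne.symm wa)
    have hwc : w < c := by'.2.1
    have wb : w ≠ b := by rintro rfl; exact bcM1 hy
    have k1 := tr hA c (Or.inr rfl) (Or.inr rfl) (by simpa using hab.ne') (by simpa using wa)
      (h4 _ hy)
    have wcP' : (w, c) ∉ P' := by
      intro h
      exact asymm n2 k1 (bef_split' h (by simp [bcS']))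
    have awP' : (a, w) ∈ P' := (F1 hV' haw hwc).2 wcP'
    have awP : (a, w) ∉ A ++ (b, c) :: M1 := by
      intro h; exact (F1 hV haw hwc).1 h yP
    have awM2 : (a, w) ∉ M2 := fun h => M2a _ h rfl
    have v1 := hV A (b, c) (M1 ++ (a, c) :: (M2 ++ (a, b) :: S2)) (by simp)
    have v2 := hV ((A ++ (b, c) :: M1) ++ (a, c) :: M2) (a, b) S2 (by simp)
    have wcA : (w, c) ∉ A := by
      intro h
      exact (notS nP h).2 hy
    have awH : (a, w) ∉ (A ++ (b, c) :: M1) ++ (a, c) :: M2 := by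
      intro h
      rw [List.mem_append, List.mem_cons] at h
      rcases h with h | h | h
      · exact awP h
      · exact hwc.ne (congrArg Prod.snd h)
      · exact awM2 h
    rcases lt_or_gt_of_ne wb with h | h
    · -- w < b
      have e1 : (w, b) ∉ A := fun hh => wcA ((v1.2.2.2.2.2.1 w by'.1 h).1 hh)
      have e2 : (w, b) ∈ (A ++ (b, c) :: M1) ++ (a, c) :: M2 := by
        by_contra hh
        exact awH ((v2.2.2.2.2.2.2 w haw h).2 hh)
      rw [List.mem_append, List.mem_append, List.mem_cons, List.mem_cons] at e2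
      rcases e2 with (h' | h' | h') | h' | h'
      · exact e1 h'
      · exact wb (congrArg Prod.fst h')
      · exact M1b _ h' (Or.inr rfl)
      · exact wa (congrArg Prod.fst h')
      · exact M2b _ h' (Or.inr rfl)
    · -- b < w
      have e1 : (b, w) ∈ A := (v1.2.2.2.2.2.2 w h hwc).2 wcA
      have e2 : (b, w) ∈ (A ++ (b, c) :: M1) ++ (a, c) :: M2 := by simp [e1]
      exact awH ((v2.2.2.2.2.1 w h hwc.le).1 e2)
  -- rearrangement
  have D1 : ∀ f ∈ M1, Dj (b, c) f := by
    intro f hf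
    have hb := M1b f hf
    have hc := M1c f hf
    have bf := bd hV (List.mem_append_left _ (M1P f hf))
    refine ⟨fun h => hb (Or.inl h.symm), fun h => hb (Or.inr h.symm), ?_, fun h => hc h.symm⟩
    intro h
    have h : c = f.1 := h
    exact absurd (lt_of_lt_of_le bf.2.1 bf.2.2) (by rw [← h]; exact lt_irrefl _)
  have D2 : ∀ f ∈ M2, Dj (a, b) f := by
    intro f hf
    have hb := M2b f hf
    have ha := M2a f hf
    have bf := bd hV (e := f) (by simp [hf])
    refine ⟨fun h => ha h.symm, ?_, fun h => hb (Or.inl h.symm), fun h => hb (Or.inr h.symm)⟩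
    intro h
    have h : a = f.2 := h
    exact absurd (lt_of_le_of_lt bf.1 bf.2.1) (by rw [← h]; exact lt_irrefl _)
  have s1 := (Sim.move q a c M1 D1).app A ((a, c) :: (M2 ++ (a, b) :: S2))
  have s2 := (Sim.move q a c M2 D2).symm.app (A ++ M1 ++ [(b, c), (a, c)]) S2
  have s : Sim q a c ((A ++ (b, c) :: M1) ++ (a, c) :: (M2 ++ (a, b) :: S2))
      ((A ++ M1) ++ (b, c) :: (a, c) :: (a, b) :: (M2 ++ S2)) := by
    have t1 : A ++ (b, c) :: M1 ++ ((a, c) :: (M2 ++ (a, b) :: S2)) =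
        A ++ ((b, c) :: M1) ++ ((a, c) :: (M2 ++ (a, b) :: S2)) := rfl
    have t2 : A ++ (M1 ++ [(b, c)]) ++ ((a, c) :: (M2 ++ (a, b) :: S2)) =
        A ++ M1 ++ [(b, c), (a, c)] ++ (M2 ++ [(a, b)]) ++ S2 := by simp
    have t3 : A ++ M1 ++ [(b, c), (a, c)] ++ ((a, b) :: M2) ++ S2 =
        (A ++ M1) ++ (b, c) :: (a, c) :: (a, b) :: (M2 ++ S2) := by simp
    rw [t2] at s1
    rw [t3] at s2
    exact s1.trans s2
  have V2 : VV a c ∅ ((A ++ M1) ++ (b, c) :: (a, c) :: (a, b) :: (M2 ++ S2)) :=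
    (s.vv ∅).1 ((Val_iff a c _).1 hV)
  have V3 : Val a c ((A ++ M1) ++ (a, b) :: (a, c) :: (b, c) :: (M2 ++ S2)) := by
    rw [Val_iff]
    rw [VV_append] at V2 ⊢
    exact ⟨V2.1, flipV hab hbc _ _ V2.2⟩
  have hlt := t_E1 n q a b c (A ++ M1) (M2 ++ S2) hq hab hbc V3
  have e3 : (A ++ M1) ++ (a, b) :: (a, c) :: (b, c) :: (M2 ++ S2) =
      (A ++ M1 ++ [(a, b)]) ++ (a, c) :: ((b, c) :: (M2 ++ S2)) := by simp
  refine ⟨b, A ++ M1 ++ [(a, b)], (b, c) :: (M2 ++ S2), hx2, abP, ?_, ?_, ?_, ?_, ?_, ?_⟩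
  · intro z
    simp only [List.mem_append, List.mem_cons, List.not_mem_nil, or_false, Prod.mk.injEq, true_and,
      hab.ne, false_and, false_or]
  · rw [← e3]; exact V3
  · intro e
    rw [s.mem e]
    simp only [List.mem_append, List.mem_cons, List.not_mem_nil, or_false]
    tauto
  · have := eqv_filter s.loc (fun e => decide (e.1 ≠ a))
    have e4 : (((A ++ M1) ++ (b, c) :: (a, c) :: (a, b) :: (M2 ++ S2)).filter
        fun e => decide (e.1 ≠ a)) = ((A ++ M1 ++ [(a, b)]) ++ (a, c) :: ((b, c) :: (M2 ++ S2))).filter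
        fun e => decide (e.1 ≠ a) := by
      simp [List.filter_append, List.filter_cons]
    rw [e4] at this
    exact fun x => (this x).symm
  · have := eqv_filter s.loc (fun e => decide (e.2 ≠ c))
    have e4 : (((A ++ M1) ++ (b, c) :: (a, c) :: (a, b) :: (M2 ++ S2)).filter
        fun e => decide (e.2 ≠ c)) = ((A ++ M1 ++ [(a, b)]) ++ (a, c) :: ((b, c) :: (M2 ++ S2))).filter
        fun e => decide (e.2 ≠ c) := by
      simp [List.filter_append, List.filter_cons]
    rw [e4] at this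
    exact fun x => (this x).symm
  · rw [← e3, s.fold]
    exact hlt

end Pool.Agent.X75.BS
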